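import Pool.Agent.Helper54_QE.Rank
import Pool.Agent.Helper25_Mob.Shf
import Pool.Agent.LE.StmtsH2

/-!
# Anderson model: the cheap end, definitions

If for almost every energy `E` of an interval the Green vectors `G (E + i η) δ_0` are unbounded as
`η → 0` with positive probability, then almost surely there is no eigenvalue in the interval.
-/

set_option autoImplicit false

open MeasureTheory ProbabilityTheory Function Filter

open scoped ENNReal BigOperators InnerProductSpace Topology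

noncomputable section

namespace Pool.Agent.AEN

open Pool.Agent.Anderson Pool.Agent.Loc Pool.Agent.Helper54.Bal

variable {d : ℕ}

/-- the scale `η_n = 1 / (n + 1)` -/
def et (n : ℕ) : ℝ := 1 / ((n : ℝ) + 1)

theorem et_pos (n : ℕ) : 0 < et n := by unfold et; positivity

theorem et_le_one (n : ℕ) : et n ≤ 1 := by
  unfold et
  rw [div_le_one (by positivity)]
  have : (0 : ℝ) ≤ n := Nat.cast_nonneg n
  linarith

theorem tendsto_et : Tendsto et atTop (𝓝 0) := tendsto_one_div_add_atTop_nhds_zero_nat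

/-- the point `E + i η_n` -/
def zn (E : ℝ) (n : ℕ) : ℂ := zz (et n) E

theorem zn_im (E : ℝ) (n : ℕ) : (zn E n).im = et n := zz_im _ _

theorem zn_im_ne (E : ℝ) (n : ℕ) : (zn E n).im ≠ 0 := by
  rw [zn_im]; exact (et_pos n).ne'

/-- the vector `G (E + i η_n) δ_x` -/
def Gn (V : Site d → ℝ) (E : ℝ) (n : ℕ) (x : Site d) : L2 d := G V (zn E n) (del x)

/-- the vectors `G (E + i η_n) δ_x` are bounded -/
def Bd (V : Site d → ℝ) (E : ℝ) (x : Site d) : Prop := ∃ C : ℝ, ∀ n : ℕ, ‖Gn V E n x‖ ≤ C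

/-- the Green function `G (E + i η_n; x, y)` tends to zero -/
def Lm (V : Site d → ℝ) (E : ℝ) (x y : Site d) : Prop :=
  Tendsto (fun n : ℕ => Gn V E n x y) atTop (𝓝 0)

/-- the ratio `|G_00|² / ‖G δ_0‖²` (it does not depend on `V 0`) -/
def fr (V : Site d → ℝ) (E : ℝ) (n : ℕ) : ℝ := ‖Gn V E n 0 0‖ ^ 2 / ‖Gn V E n 0‖ ^ 2

/-- the constant of the spectral averaging -/
def cs (σ : ℝ) : ℝ := Real.pi / |σ|

/-- `E[η_n |G_00|²]` -/
def JJ (d : ℕ) (σ E : ℝ) (n : ℕ) : ℝ≥0∞ :=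
  ∫⁻ V : Site d → ℝ, ENNReal.ofReal (et n * ‖Gn V E n 0 0‖ ^ 2) ∂(PP d (gl σ))

/-- `∫_(a,b) η_n |G_00|² dE` -/
def II (V : Site d → ℝ) (a b : ℝ) (n : ℕ) : ℝ≥0∞ :=
  ∫⁻ E in Set.Ioo a b, ENNReal.ofReal (et n * ‖Gn V E n 0 0‖ ^ 2)

end Pool.Agent.AEN
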