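import Pool.Agent.AEN.Defs

/-!
# Anderson model: the cheap end, statements

Useful lemmas: `G_upd`, `G_upd'`, `G_symm`, `im_G_del'`, `norm_G_del_pos`, `G_del_ne`
(`Helper54_QE/Rank.lean`, namespace `Pool.Agent.QE`); `G_eq`, `G_unique`, `isRes_G`, `G_update_del`,
`continuous_G` (`Helper54_Ballistic/Ell.lean`); `IsRes.ident_apply`, `im_inner`, `norm_le'`
(`Res.lean`); `shiftInv_PP`, `resamp_PP`, `measurable_upd` (`Law.lean`); `tau` (`Cov.lean`);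
`inner_del_left`, `shift`, `shift_apply` (`Helper17_Anderson/Ell2.lean`); `G_tau`
(`Helper25_Mob/Shf.lean`).
-/

set_option autoImplicit false

open MeasureTheory ProbabilityTheory Function Filter

open scoped ENNReal BigOperators InnerProductSpace Topology

noncomputable section

namespace Pool.Agent.AEN

open Pool.Agent.Anderson Pool.Agent.Loc Pool.Agent.Helper54.Bal

/-- MON. Proof: `g = G (zz b E) f`, `h = G (zz a E) f`. `h - g = (zz a E - zz b E) • G (zz a E) g`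
(`(isRes_G V).ident_apply`), so `h = g - (i (b - a)) • k`, `k = G (zz a E) g`, and
`‖h‖² = ‖g‖² + 2 (b - a) im ⟪g, k⟫ + (b - a)² ‖k‖²` with `im ⟪g, k⟫ = a ‖k‖²`
(`(isRes_G V).im_inner`). -/
def MonStmt : Prop :=
  ∀ (d : ℕ) (V : Site d → ℝ) (E : ℝ) (f : L2 d) (a b : ℝ), 0 < a → a ≤ b →
    ‖G V (zz b E) f‖ ≤ ‖G V (zz a E) f‖

/-- TWO. Proof: `V' = update V y s`. `G_upd` at `y`: `G V z δ_x = G V' z δ_x +
((s - V y) (G V' z δ_x) y) • G V z δ_y`, so `|s - V y| |(G V' z δ_x) y| ‖G V z δ_y‖ ≤ C`. By MON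
(`et` is decreasing) `‖Gn V E n y‖` is monotone in `n`, it is unbounded, so it tends to infinity. -/
def TwoStmt : Prop :=
  ∀ (d : ℕ) (V : Site d → ℝ) (E : ℝ) (x y : Site d) (s : ℝ), s ≠ V y →
    Bd V E x → Bd (Function.update V y s) E x → ¬ Bd V E y → Lm (Function.update V y s) E x y

/-- MEA. Proof: for fixed `n` the map `V ↦ Gn V E n x` is continuous (`continuous_G`), so is
`V ↦ Gn V E n x y = ⟪del y, Gn V E n x⟫`. `Bd`: the union over `C ∈ ℕ` of the intersection over `n`;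
`Lm`: `measurableSet_tendsto`. -/
def MeaStmt : Prop :=
  ∀ (d : ℕ) (E : ℝ) (x y : Site d), MeasurableSet {V : Site d → ℝ | Bd V E x} ∧
    MeasurableSet {V : Site d → ℝ | Lm V E x y}

/-- TRA. Proof: `G (tau a V) z (del x) = shift a (G V z (del (x + a)))` by `G_unique` and `G_eq`, as
in `G_tau` (there `x = 0`); `shift a` is an isometry. -/
def TraStmt : Prop :=
  ∀ (d : ℕ) (V : Site d → ℝ) (E : ℝ) (a x y : Site d),
    (Bd (tau a V) E x ↔ Bd V E (x + a)) ∧ (Lm (tau a V) E x y ↔ Lm V E (x + a) (y + a))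

/-- ASL (uses TWO, MEA, TRA). Proof: countably many `x, y`; by `shiftInv_PP` (`tau y`) and TRA it is
enough to take `y = 0`. The set `N = {V | Bd V E x ∧ ¬ Bd V E 0 ∧ ¬ Lm V E x 0}` is measurable. If
`update V 0 s ∈ N` and `update V 0 t ∈ N` then `s = t` (TWO for `update V 0 s` and `t`), so
`{s | update V 0 s ∈ N}` has at most one point and measure zero. By `resamp_PP` (the law of
`update V 0 s` is `PP d ν`) `PP d ν N = 0`. -/
def AslStmt : Prop :=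
  ∀ (d : ℕ) (ν : Measure ℝ) [IsProbabilityMeasure ν] [NullSingletonClass ν] (E : ℝ),
    ∀ᵐ V ∂(PP d ν), ∀ x y : Site d, Bd V E x → ¬ Bd V E y → Lm V E x y

/-- CON: the lattice is connected. -/
def ConStmt : Prop :=
  ∀ (d : ℕ) (P : Site d → Prop), (∀ (x : Site d) (i : Fin d), P x ↔ P (x + Pi.single i 1)) →
    ∀ x y : Site d, P x ↔ P y

/-- DET (uses CON). Proof: otherwise (CON) there are neighbours `x'` with `¬ Bd V E x'` and `x₁` with
`Bd V E x₁`. Let `f = ∑ (x ~ x', Bd x) del x` (a finite sum, over `i` and the sign as in `lap`) and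
`g n = G V (zn E n) f = ∑ (x ~ x', Bd x) Gn V E n x`. Claim: `g n y → 0` for every `y`. If `¬ Bd y`:
the hypothesis for every `x`. If `Bd y`: `Gn x y = Gn y x` (`G_symm`), and `G_eq` for `del y` at the
point `x' ≠ y` says `∑ (x ~ x') Gn y x = -(V x' - z) Gn y x'`, where `Gn y x' → 0` and `Gn y x → 0`
for the neighbours with `¬ Bd x`; so `∑ (x ~ x', Bd x) Gn y x → 0`. Now `G_eq` for `f` at the point
`x₁`: `lap (g n) x₁ + (V x₁ - z) g n x₁ = f x₁`, so `f x₁ = 0`, but `f x₁` is a positive integer. -/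
def DetStmt : Prop :=
  ∀ (d : ℕ) (V : Site d → ℝ) (E : ℝ), (∀ x y : Site d, Bd V E x → ¬ Bd V E y → Lm V E x y) →
    (∀ x, Bd V E x) ∨ ∀ x, ¬ Bd V E x

/-- ZON (uses ASL, DET, MEA, TRA, `LE.CH.ErgStmt`). Proof: the set `A = {V | ∀ x, Bd V E x}` is
measurable (MEA) and invariant (TRA), so its measure is 0 or 1. It is not 1 by the hypothesis. By ASL
and DET almost surely `V ∈ A` or `∀ x, ¬ Bd V E x`. (`gl σ` has no atoms for `σ ≠ 0`.) -/
def ZonStmt : Prop :=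
  ∀ (d : ℕ) (σ E : ℝ), 1 ≤ d → σ ≠ 0 → PP d (gl σ) {V | ¬ Bd V E 0} ≠ 0 →
    ∀ᵐ V ∂(PP d (gl σ)), ∀ x : Site d, ¬ Bd V E x

/-- SPA: spectral averaging. Proof: `g = G V z (del 0) 0`, `z = zz η E`; `G_upd'` gives
`G (update V 0 s) z (del 0) 0 = g / (1 + (s - V 0) g) = 1 / (s + w)`, `w = 1 / g - V 0`,
`im w = - im g / |g|² < 0`, so the imaginary part is `y / ((s + x)² + y²)`, `y = - im w`,
`x = re w`, with integral `π` over `s` (`integral_poisson`), and the density of `gl σ` is at most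
`1 / (√(2π) |σ|) ≤ 1 / |σ|` (see `bddDens_gl` in `Helper48_Loc/GaussLaw.lean`: `gl σ` is
`gaussianReal 0 σ²`). -/
def SpaStmt : Prop :=
  ∀ (d : ℕ) (σ E η : ℝ) (V : Site d → ℝ), σ ≠ 0 → 0 < η →
    ∫⁻ s, ENNReal.ofReal (G (Function.update V 0 s) (zz η E) (del 0) 0).im ∂(gl σ) ≤
      ENNReal.ofReal (cs σ)

/-- RAT (uses MON). Proof: `V' = update V 0 s`. By `G_update_del` the vectors `G V' z δ_0` and
`G V z δ_0` are proportional (and not 0), which gives (1). (2) `G_upd` at 0, evaluated at 0: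
`g = g' + (s - V 0) g' g` with `g = Gn V 0 0`, `g' = Gn V' 0 0`, so
`|s - V 0| |g| |g'| ≤ |g| + |g'|`; with `|g| = √F ‖Gn V 0‖`, `|g'| = √F ‖Gn V' 0‖` (the same `F = fr`)
this gives `|s - V 0| √F ≤ 1 / ‖Gn V 0‖ + 1 / ‖Gn V' 0‖ → 0` (both norms tend to infinity by MON). -/
def RatStmt : Prop :=
  ∀ (d : ℕ) (V : Site d → ℝ) (E s : ℝ),
    (∀ n, fr (Function.update V 0 s) E n = fr V E n) ∧
    (s ≠ V 0 → ¬ Bd V E 0 → ¬ Bd (Function.update V 0 s) E 0 → Tendsto (fr V E) atTop (𝓝 0))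

/-- DCY (uses SPA, RAT). Proof: `et n ‖Gn 0 0‖² = fr V E n * im (Gn 0 0)` (`im_G_del'`). By
`resamp_PP` and RAT (1), `JJ = ∫⁻ V, ofReal (fr V E n) * (∫⁻ s, ofReal (im ..) ∂ gl σ) ≤
ofReal (cs σ) * ∫⁻ V, ofReal (fr V E n)`, and `fr ≤ 1`. If `¬ Bd V E 0` almost surely, then (by
`resamp_PP`) for almost every `V` for almost every `s` also `¬ Bd (update V 0 s) E 0` and `s ≠ V 0`
(no atoms), so `fr V E n → 0` almost surely and `∫⁻ fr → 0` by dominated convergence. -/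
def DcyStmt : Prop :=
  ∀ (d : ℕ) (σ E : ℝ), σ ≠ 0 → (∀ n, JJ d σ E n ≤ ENNReal.ofReal (cs σ)) ∧
    ((∀ᵐ V ∂(PP d (gl σ)), ¬ Bd V E 0) → Tendsto (JJ d σ E) atTop (𝓝 0))

/-- EIG. Proof: `φ = G V z ((E0 - z) φ)` (`G_unique`), so `⟪φ, G V z δ_0⟫ = conj (φ 0) / (E0 - z)`
(adjoint of the resolvent, or `⟪star φ, ..⟫` and symmetry), hence
`|φ 0| / |E0 - z| ≤ ‖φ‖ ‖G V z δ_0‖`. With `z = E + i η`, `|E - E0| ≤ η`: `|E0 - z|² ≤ 2 η²`, so
`|G_00| ≥ im G_00 = η ‖G δ_0‖² ≥ |φ 0|² / (2 η ‖φ‖²)`, `η |G_00|² ≥ |φ 0|⁴ / (4 η ‖φ‖⁴)` on an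
interval of length `2 η` which is contained in `(a, b)` for small `η`. -/
def EigStmt : Prop :=
  ∀ (d : ℕ) (V : Site d → ℝ) (a b E0 : ℝ) (φ : L2 d), a < E0 → E0 < b → IsEigen V E0 φ → φ ≠ 0 →
    ∀ᶠ n in atTop, ENNReal.ofReal (‖φ 0‖ ^ 4 / (2 * ‖φ‖ ^ 4)) ≤ II V a b n

/-- FTU (uses DCY). Proof: Fatou (`lintegral_liminf_le`, `V ↦ II V a b n` is measurable by
`continuous_G` and `Measurable.lintegral_prod_right'`), Tonelli: `∫⁻ V, II V a b n =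
∫⁻ E in Ioo a b, JJ d σ E n → 0` by DCY and dominated convergence. -/
def FtuStmt : Prop :=
  ∀ (d : ℕ) (σ a b : ℝ), σ ≠ 0 →
    (∀ᵐ E ∂((volume : Measure ℝ).restrict (Set.Ioo a b)), ∀ᵐ V ∂(PP d (gl σ)), ¬ Bd V E 0) →
    ∀ᵐ V ∂(PP d (gl σ)), liminf (fun n => II V a b n) atTop = 0

/-- END (uses ZON, FTU, EIG). Proof: by ZON the hypothesis of FTU holds; by `shiftInv_PP` almost
surely `liminf II (tau x V) a b n = 0` for all `x`. If `φ` is an eigenvector of `V` then `shift x φ`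
is one of `tau x V`, and by EIG `(shift x φ) 0 = φ x = 0`. -/
def EndStmt : Prop :=
  ∀ (d : ℕ) (σ a b : ℝ), 1 ≤ d → σ ≠ 0 →
    (∀ᵐ E ∂((volume : Measure ℝ).restrict (Set.Ioo a b)), PP d (gl σ) {V | ¬ Bd V E 0} ≠ 0) →
    ∀ᵐ V ∂(PP d (gl σ)), ∀ E0 : ℝ, a < E0 → E0 < b → ∀ φ : L2 d, IsEigen V E0 φ → φ = 0

/-- POS (uses MON, MEA). Proof: `im G_00 = η ‖G δ_0‖²` (`im_G_del'`), so by MON the event is
contained in `{V | ∃ n, A ≤ ‖Gn V E n 0‖²}` (take `et n ≤ η`), whose probability is at least `p` for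
every `A`; these sets decrease in `A` with intersection `{¬ Bd}` (continuity from above,
`tendsto_measure_iInter_atTop` or `measure_iInter_eq_iInf`). -/
def PosStmt : Prop :=
  ∀ (d : ℕ) (σ E : ℝ) (p : ℝ≥0∞),
    (∀ A : ℝ, ∃ η : ℝ, 0 < η ∧ p ≤ PP d (gl σ) {V | A * η ≤ (G V (zz η E) (del 0) 0).im}) →
    p ≤ PP d (gl σ) {V | ¬ Bd V E 0}

/-- EN2 (uses END, POS). -/
def En2Stmt : Prop :=
  ∀ (d : ℕ) (σ a b : ℝ), 1 ≤ d → σ ≠ 0 →
    (∀ᵐ E ∂((volume : Measure ℝ).restrict (Set.Ioo a b)), ∃ p : ℝ≥0∞, p ≠ 0 ∧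
      ∀ A : ℝ, ∃ η : ℝ, 0 < η ∧ p ≤ PP d (gl σ) {V | A * η ≤ (G V (zz η E) (del 0) 0).im}) →
    ∀ᵐ V ∂(PP d (gl σ)), ∀ E0 : ℝ, a < E0 → E0 < b → ∀ φ : L2 d, IsEigen V E0 φ → φ = 0

end Pool.Agent.AEN
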